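import Pool.Agent.W758.AHC.Stm2

set_option autoImplicit false

namespace Pool.Agent.W493.AHC

open Pool.Agent.W758.AHC

theorem cc0 : cc 0 = 1 := by simp [cc]

theorem exc : S_EXC := by
  intro hCC p q hp hq hne
  have hr := hCC.2.2.1
  have h1 : cc 1 = 1 / 2 := by rw [hr 0, cc0]; norm_num
  have h2 : cc 2 = 3 / 8 := by rw [hr 1, h1]; norm_num
  have h3 : cc 3 = 5 / 16 := by rw [hr 2, h2]; norm_num
  have h4 : cc 4 = 35 / 128 := by rw [hr 3, h3]; norm_num
  have h5 : cc 5 = 63 / 256 := by rw [hr 4, h4]; norm_num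
  have h6 : cc 6 = 231 / 1024 := by rw [hr 5, h5]; norm_num
  have h7 : cc 7 = 429 / 2048 := by rw [hr 6, h6]; norm_num
  have h8 : cc 8 = 6435 / 32768 := by rw [hr 7, h7]; norm_num
  have h9 : cc 9 = 12155 / 65536 := by rw [hr 8, h8]; norm_num
  have h10 : cc 10 = 46189 / 262144 := by rw [hr 9, h9]; norm_num
  have h11 : cc 11 = 88179 / 524288 := by rw [hr 10, h10]; norm_num
  have h12 : cc 12 = 676039 / 4194304 := by rw [hr 11, h11]; norm_num
  interval_cases p <;> interval_cases q <;>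
    first
    | exact absurd ⟨rfl, rfl⟩ hne
    | (norm_num [h4, h5, h6, h7, h8, h9, h10, h11, h12, FF])

end Pool.Agent.W493.AHC
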